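import Mathlib

namespace Pool.Agent.H.MP_394e0d_co
open Set

/-- `T` is a triple array with rows `R`, columns `C`, symbols `V`. -/
def TA {R C V : Type} (T : R → C → V) : Prop :=
  (∀ i, Function.Injective (T i)) ∧ (∀ j, Function.Injective fun i => T i j) ∧
  (∃ e : ℕ, ∀ v, {p : R × C | T p.1 p.2 = v}.ncard = e) ∧
  (∃ l : ℕ, ∀ i j, (range (T i) ∩ range fun i' => T i' j).ncard = l) ∧
  (∃ l : ℕ, ∀ i i', i ≠ i' → (range (T i) ∩ range (T i')).ncard = l) ∧
  (∃ l : ℕ, ∀ j j', j ≠ j' → ((range fun i => T i j) ∩ range fun i => T i j').ncard = l)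

theorem TA.equiv {R C V R' C' V' : Type} {T : R → C → V} (h : TA T) (a : R' ≃ R) (b : C' ≃ C)
    (c : V ≃ V') : TA fun i j => c (T (a i) (b j)) := by
  obtain ⟨h1, h2, ⟨e, h3⟩, ⟨l1, h4⟩, ⟨l2, h5⟩, l3, h6⟩ := h
  have r1 : ∀ i, (range fun j => c (T i (b j))) = c '' range (T i) := fun i => by
    rw [← range_comp]; exact b.surjective.range_comp (c ∘ T i)
  have r2 : ∀ j, (range fun i => c (T (a i) j)) = c '' range fun i => T i j := fun j => by
    rw [← range_comp]; exact a.surjective.range_comp (c ∘ fun i => T i j)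
  refine ⟨fun i => c.injective.comp ((h1 _).comp b.injective),
    fun j => c.injective.comp ((h2 _).comp a.injective), ⟨e, fun v => ?_⟩, ⟨l1, fun i j => ?_⟩,
    ⟨l2, fun i i' h => ?_⟩, l3, fun j j' h => ?_⟩
  · rw [← h3 (c.symm v), ← ncard_image_of_injective _ (a.prodCongr b).injective, Equiv.image_eq_preimage_symm]
    congr 1; ext p; simp [Equiv.eq_symm_apply]
  · rw [r1, r2, ← image_inter c.injective, ncard_image_of_injective _ c.injective, h4]
  · rw [r1, r1, ← image_inter c.injective, ncard_image_of_injective _ c.injective,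
      h5 _ _ (a.injective.ne h)]
  · rw [r2, r2, ← image_inter c.injective, ncard_image_of_injective _ c.injective,
      h6 _ _ (b.injective.ne h)]

variable {F : Type} [Field F] [Finite F]

def off : Option F → F × F → F
  | none, P => P.1
  | some j, P => P.2 - j * P.1

theorem line_card (d : Option F) (k : F) : {P | off d P = k}.ncard = Nat.card F := by
  cases d with
  | none =>
    have : {P : F × F | off none P = k} = range fun y => (k, y) := by
      ext ⟨x, y⟩; simp [off, eq_comm]
    rw [this, ncard_range_of_injective fun _ _ h => (Prod.ext_iff.1 h).2]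
  | some j =>
    have : {P : F × F | off (some j) P = k} = range fun x => (x, k + j * x) := by
      ext ⟨x, y⟩; simp only [off, sub_eq_iff_eq_add, mem_setOf_eq, mem_range, Prod.mk.injEq]
      exact ⟨fun h => ⟨x, rfl, h.symm⟩, by rintro ⟨_, rfl, h⟩; exact h.symm⟩
    rw [this, ncard_range_of_injective fun _ _ h => (Prod.ext_iff.1 h).1]

theorem uniq {P Q : F × F} (h : P ≠ Q) : ∃! d, off d P = off d Q := by
  obtain ⟨x, y⟩ := P
  obtain ⟨x', y'⟩ := Q
  by_cases e : x = x'
  · subst e
    refine ⟨none, rfl, fun d hd => ?_⟩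
    cases d with
    | none => rfl
    | some j => exact (h (by simpa [off] using hd)).elim
  · have e' := sub_ne_zero.2 e
    refine ⟨some ((y - y') / (x - x')), by simp only [off]; field_simp; ring, fun d hd => ?_⟩
    cases d with
    | none => exact (e hd).elim
    | some j =>
      simp only [off] at hd
      rw [Option.some_inj, eq_div_iff e']; linear_combination -hd

theorem build (col : F × F → Option F → Option F) (ha : ∀ P, Function.Injective (col P))
    (hb : ∀ P d, col P d ≠ d)
    (hc : ∀ P Q d, off d P = off d Q → col P d = col Q d → P = Q) :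
    ∃ T : Option F → F × F → Option F × F, TA T := by
  let s : F × F → Option F ≃ Option F := fun P =>
    Equiv.ofBijective _ (Finite.injective_iff_bijective.1 (ha P))
  have hs : ∀ P i, col P ((s P).symm i) = i := fun P i => (s P).apply_symm_apply i
  let T : Option F → F × F → Option F × F := fun i P => ((s P).symm i, off ((s P).symm i) P)
  have h1 : ∀ i, Function.Injective (T i) := fun i P Q h => by
    obtain ⟨a, b⟩ := Prod.ext_iff.1 h
    simp only [T] at a b
    refine hc P Q ((s P).symm i) (by rw [b, a]) (by rw [hs, a, hs])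
  have pr : ∀ A : Set (Option F), {v : Option F × F | v.1 ∈ A}.ncard = A.ncard * Nat.card F :=
    fun A => by
      rw [← ncard_univ, ← ncard_prod]; congr 1; ext v; simp
  have c1 : ∀ i : Option F, ({i}ᶜ : Set (Option F)).ncard = Nat.card F := fun i => by
    have := ncard_add_ncard_compl ({i} : Set (Option F))
    rw [ncard_singleton, Finite.card_option] at this; omega
  have r1 : ∀ i, range (T i) = {v | v.1 ∈ ({i}ᶜ : Set _)} := fun i => by
    refine eq_of_subset_of_ncard_le ?_ ?_
    · rintro _ ⟨P, rfl⟩ (h : (s P).symm i = i)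
      exact hb P i (by have := hs P i; rwa [h] at this)
    · rw [pr, c1, ncard_range_of_injective (h1 i), Nat.card_prod]
  have r2 : ∀ P, (range fun i => T i P) = range fun d => (d, off d P) := fun P =>
    (s P).symm.surjective.range_comp fun d => (d, off d P)
  have i2 : ∀ P : F × F, Function.Injective fun d => (d, off d P) := fun P _ _ h =>
    (Prod.ext_iff.1 h).1
  refine ⟨T, h1, fun P => (i2 P).comp (s P).symm.injective, ⟨Nat.card F, fun v => ?_⟩,
    ⟨Nat.card F, fun i P => ?_⟩, ⟨(Nat.card F - 1) * Nat.card F, fun i i' h => ?_⟩,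
    1, fun P Q h => ?_⟩
  · obtain ⟨d, k⟩ := v
    rw [← line_card d k, ← ncard_image_of_injective {P | off d P = k}
      (f := fun P => (col P d, P)) fun _ _ h => (Prod.ext_iff.1 h).2]
    congr 1; ext ⟨i, P⟩
    simp only [T, mem_setOf_eq, Prod.mk.injEq, mem_image]
    constructor
    · rintro ⟨rfl, rfl⟩; exact ⟨P, rfl, hs P i, rfl⟩
    · rintro ⟨Q, rfl, rfl, rfl⟩
      have : (s Q).symm (col Q d) = d := (s Q).symm_apply_apply d
      rw [this]; exact ⟨rfl, rfl⟩
  · rw [r1, r2, ← c1 i, ← ncard_image_of_injective _ (i2 P)]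
    congr 1; ext ⟨d, k⟩; simp [eq_comm]
  · rw [r1, r1]
    have := ncard_add_ncard_compl ({i, i'} : Set (Option F))
    rw [ncard_pair h, Finite.card_option] at this
    rw [show Nat.card F - 1 = ({i, i'}ᶜ : Set (Option F)).ncard by omega, ← pr]
    congr 1; ext v; simp
  · obtain ⟨d, hd, hu⟩ := uniq h
    rw [r2, r2, ncard_eq_one]
    refine ⟨(d, off d P), ?_⟩
    ext ⟨d', k⟩
    simp only [mem_inter_iff, mem_range, Prod.mk.injEq, mem_singleton_iff]
    constructor
    · rintro ⟨⟨_, rfl, rfl⟩, _, rfl, h2⟩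
      rw [hu _ h2.symm]; exact ⟨rfl, rfl⟩
    · rintro ⟨rfl, rfl⟩; exact ⟨⟨_, rfl, rfl⟩, _, rfl, hd.symm⟩

open Classical in
theorem odd_case (h2 : (2 : F) ≠ 0) : ∃ T : Option F → F × F → Option F × F, TA T := by
  obtain ⟨g, hg⟩ : ∃ g : F, 2 * g = 1 := ⟨2⁻¹, mul_inv_cancel₀ h2⟩
  refine build (fun P d => match d with
    | none => some (2 * (P.2 - g * P.1 ^ 2) - P.1)
    | some j => if j = P.1 then none else if j = P.2 - g * P.1 ^ 2 then some P.1
      else some (2 * j - P.1)) ?_ ?_ ?_
  · rintro ⟨x, y⟩ (_ | j) (_ | j') h <;> simp only at h <;> (try split_ifs at h) <;> grind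
  · rintro ⟨x, y⟩ (_ | j) h <;> simp only at h <;> (try split_ifs at h) <;> grind
  · rintro ⟨x, y⟩ ⟨x', y'⟩ (_ | j) e h <;> simp only [off] at h e <;> (try split_ifs at h) <;>
      simp only [Prod.mk.injEq] <;> grind

end Pool.Agent.H.MP_394e0d_co
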