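import Pool.Agent.H.MP_394e0d_co.A

namespace Pool.Agent.H.MP_394e0d_co

variable {F : Type} [Field F] [CharP F 2]

open Classical in
noncomputable def colE (e : F) (r : F → F) (P : F × F) : Option F → Option F
  | none => if P.1 = 0 then some ((e + 1) * P.2 ^ 2 * e⁻¹ ^ 2) else some ((e + 1) * P.2 * P.1⁻¹)
  | some j =>
    if P.1 = 0 then
      if j = 0 then none else if P.2 = 0 then some ((e + 1) * j) else
        if e * j = P.2 ^ 2 then some 0 else some ((e + 1) * j * e⁻¹)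
    else if P.2 = 0 then
      if j * P.1 ^ 2 = 1 then none else some (j + P.1⁻¹ ^ 2)
    else if j ^ 2 * P.1 * (P.1 * P.2 + 1) = P.2 ^ 3 then none
    else if j * P.1 = P.2 then
      if P.1 * P.2 = 1 then none else if e ^ 2 * (P.1 * P.2 + 1) = P.1 * P.2 then some 0
        else some (j * (r (P.1 * P.2) + 1)⁻¹)
    else if j * P.1 = e * P.2 then some 0 else some (j + P.2 * P.1⁻¹)

theorem L0 {u c : F} (h : u ^ 2 = c) (hc : ¬c = 1) : (u + 1)⁻¹ * (u + 1) = 1 :=
  inv_mul_cancel₀ (by grind)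

theorem L1 (x y j j' : F) (hy : ¬y = 0) (a : j ^ 2 * x * (x * y + 1) = y ^ 3)
    (b : j' ^ 2 * x * (x * y + 1) = y ^ 3) : j = j' := by
  have : x * (x * y + 1) ≠ 0 := by grind
  have : (j - j') ^ 2 = 0 := mul_right_cancel₀ this (by grind)
  grind

theorem L2 (x y j u : F) (hu : u ^ 2 = x * y) (hy : ¬y = 0) (hc : ¬x * y = 1) (a : j * x = y) :
    j * (u + 1)⁻¹ ≠ 0 := by
  have := L0 hu hc
  generalize (u + 1)⁻¹ = w at *
  grind

theorem L3 (x y j j' u : F) (hu : u ^ 2 = x * y) (hx : ¬x = 0) (hc : ¬x * y = 1) (a : j * x = y)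
    (b : ¬j' ^ 2 * x * (x * y + 1) = y ^ 3) : j * (u + 1)⁻¹ ≠ j' + y * x⁻¹ := by
  have := L0 hu hc
  generalize (u + 1)⁻¹ = w at *
  have : y * x⁻¹ = j := by grind
  rw [this]; grind

theorem L6 (x y x' y' j u u' : F) (hu : u ^ 2 = x * y) (hu' : u' ^ 2 = x' * y') (hy : ¬y = 0)
    (a : j * x = y) (b : j * x' = y') (h : j * (u + 1)⁻¹ = j * (u' + 1)⁻¹) : x = x' ∧ y = y' := by
  have hj : j ≠ 0 := by grind
  have h1 : u = u' := add_right_cancel (inv_injective (mul_left_cancel₀ hj h))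
  have : (x - x') ^ 2 = 0 := mul_left_cancel₀ hj (by grind)
  grind

theorem L7 (x y x' y' j e : F) (h0 : e ≠ 0) (h1 : e ≠ 1) (hy : ¬y = 0) (a : j * x = e * y)
    (b : j * x' = e * y') (ho : y - j * x = y' - j * x') : x = x' ∧ y = y' := by
  have h2 : y = y' := mul_left_cancel₀ (sub_ne_zero.2 h1) (by grind)
  have hj : j ≠ 0 := by grind
  exact ⟨mul_left_cancel₀ hj (by grind), h2⟩

theorem L8 (x y x' y' j : F) (hx : ¬x = 0) (hx' : ¬x' = 0) (a : ¬j * x = y)
    (ho : y - j * x = y' - j * x') (h : j + y * x⁻¹ = j + y' * x'⁻¹) : x = x' ∧ y = y' := by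
  have h := add_left_cancel h
  have e1 : y = y * x⁻¹ * x := by field_simp
  have e2 : y' = y' * x'⁻¹ * x' := by field_simp
  rw [← h] at e2
  generalize y * x⁻¹ = t at *
  have : t - j ≠ 0 := by grind
  have : x = x' := mul_left_cancel₀ this (by grind)
  grind

variable {e : F} {r : F → F} (h0 : e ≠ 0) (h1 : e ≠ 1) (hr : ∀ c, r c ^ 2 = c)
include h0 h1 hr

theorem cb (P : F × F) (d : Option F) : colE e r P d ≠ d := by
  obtain ⟨x, y⟩ := P
  have := hr (x * y)
  intro h
  rcases d with _ | j <;> simp only [colE] at h <;> split_ifs at h <;> grind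

set_option maxHeartbeats 4000000 in
theorem ca (P : F × F) : Function.Injective (colE e r P) := by
  obtain ⟨x, y⟩ := P
  have hu := hr (x * y)
  rintro (_ | j) (_ | j') h <;> simp only [colE] at h <;> (try split_ifs at h) <;>
    first
    | exact congrArg _ (L1 x y j j' ‹_› ‹_› ‹_›)
    | exact (L2 x y j _ hu ‹_› ‹_› ‹_› (Option.some.inj h)).elim
    | exact (L2 x y j' _ hu ‹_› ‹_› ‹_› (Option.some.inj h).symm).elim
    | exact (L3 x y j j' _ hu ‹_› ‹_› ‹_› ‹_› (Option.some.inj h)).elim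
    | exact (L3 x y j' j _ hu ‹_› ‹_› ‹_› ‹_› (Option.some.inj h).symm).elim
    | exact congrArg _ (add_right_cancel (Option.some.inj h))
    | exact congrArg _ (mul_right_cancel₀ ‹¬x = 0› (‹j * x = e * y›.trans ‹j' * x = e * y›.symm))
    | grind

set_option maxHeartbeats 4000000 in
theorem cc (P Q : F × F) (d : Option F) (ho : off d P = off d Q) (h : colE e r P d = colE e r Q d) :
    P = Q := by
  obtain ⟨x, y⟩ := P
  obtain ⟨x', y'⟩ := Q
  have hu := hr (x * y)
  have hu' := hr (x' * y')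
  rcases d with _ | j <;> simp only [colE, off] at h ho <;> split_ifs at h <;>
    simp only [Prod.mk.injEq] <;>
    first
    | exact (L2 x y j _ hu ‹_› ‹_› ‹_› (Option.some.inj h)).elim
    | exact (L2 x' y' j _ hu' ‹_› ‹_› ‹_› (Option.some.inj h).symm).elim
    | exact L6 x y x' y' j _ _ hu hu' ‹_› ‹_› ‹_› (Option.some.inj h)
    | exact L7 x y x' y' j e h0 h1 ‹_› ‹_› ‹_› ho
    | exact L8 x y x' y' j ‹_› ‹_› ‹_› ho (Option.some.inj h)
    | grind

end Pool.Agent.H.MP_394e0d_co
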